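import Pool.Agent.BEP.Stmts

/-!
# Squad BEP, row CYL: the hypotheses of `F_R` for products
-/

namespace Pool.Agent.BEP.H26

open Set Filter Topology MeasureTheory
open Pool.Agent Pool.Agent.BE01 Pool.Agent.BEG

theorem cyl (spp : SppStmt) (cns : CnsStmt) (sce : SceStmt) (spc : SpcStmt) (ari : AriStmt) :
    CylStmt := by
  intro d m Ω1 Ω2 G p l1 hd hm h1 h2 hG hF
  obtain ⟨hl1, hodd, hM⟩ := hF
  obtain ⟨m1, hm1⟩ := (cns m Ω2 ∅ (by omega) h2).2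
  obtain ⟨C, hC, hCR⟩ := ari (Sp Ω1 G) (Sp Ω2 ∅) l1 m1 (cns d Ω1 G (by omega) h1).1
    (cns m Ω2 ∅ (by omega) h2).1
  refine ⟨C, hC, fun R hR hRC => ?_⟩
  have hD : Dom (Sc R Ω1) := (sce d Ω1 R 0 (fun _ => 0) hR h1).1
  obtain ⟨hS, hsp⟩ := spc d Ω1 G R hR h1 hG
  obtain ⟨hin, hout⟩ := spp d m (Sc R Ω1) Ω2 G hd hm hD h2 hS
  have hR2 : R ^ 2 ≠ 0 := by positivity
  have key : ∀ n : ℕ, (n : ℝ) ^ 2 * (l1 / R ^ 2 + m1) ∈ Sp (Pr (Sc R Ω1) Ω2) (exs m G) →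
      (n : ℝ) ^ 2 * l1 ∈ Sp Ω1 G := by
    intro n hn
    obtain ⟨l', hl', l'', hl'', heq⟩ := hout _ hn
    have ha : R ^ 2 * l' ∈ Sp Ω1 G := (hsp l').1 hl'
    have := hCR R hR hRC n (R ^ 2 * l') ha l'' hl'' (by rw [heq]; field_simp)
    rw [this]
    exact ha
  refine ⟨l1 / R ^ 2 + m1, ?_, ?_, ?_⟩
  · refine hin _ ((hsp _).2 ?_) _ hm1
    have : R ^ 2 * (l1 / R ^ 2) = l1 := by field_simp
    rw [this]
    exact hl1
  · intro n h3 h4 h5 hc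
    exact hodd n h3 h4 h5 (key n hc)
  · intro J
    obtain ⟨M, hJM, hMn⟩ := hM J
    exact ⟨M, hJM, fun n ho hn hn' hc => hMn n ho hn hn' (key n hc)⟩

end Pool.Agent.BEP.H26
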